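import Mathlib
import Pool.Agent.X267.CT.Fin

set_option autoImplicit false

/-!
# The set of finite orders of products of two class transpositions is finite
-/

namespace Pool.Agent.Results.MP_0fcb7f_al.FinitelyManyOrders

open Pool.Agent.X267.CT

/-- `τ` is the class transposition interchanging two disjoint residue classes
`r₁ (m₁)` and `r₂ (m₂)`, with `0 ≤ r₁ < m₁` and `0 ≤ r₂ < m₂`. -/
def IsClassTransposition (τ : Equiv.Perm ℤ) : Prop :=
  ∃ r₁ m₁ r₂ m₂ : ℤ, 0 ≤ r₁ ∧ r₁ < m₁ ∧ 0 ≤ r₂ ∧ r₂ < m₂ ∧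
    (∀ k l : ℤ, r₁ + k * m₁ ≠ r₂ + l * m₂) ∧
    (∀ k : ℤ, τ (r₁ + k * m₁) = r₂ + k * m₂ ∧ τ (r₂ + k * m₂) = r₁ + k * m₁) ∧
    ∀ x : ℤ, (∀ k : ℤ, x ≠ r₁ + k * m₁) → (∀ k : ℤ, x ≠ r₂ + k * m₂) → τ x = x

/-- The set of the (finite) orders of products of two class transpositions. -/
def Orders : Set ℕ :=
  {n | 0 < n ∧ ∃ τ τ' : Equiv.Perm ℤ, IsClassTransposition τ ∧ IsClassTransposition τ' ∧
    orderOf (τ * τ') = n}

theorem in_iff (T : Dat) (x : ℤ) : T.In x ↔ ∃ k : ℤ, x = T.a + k * T.m := by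
  have hm := T.mq.ne'
  constructor
  · rintro ⟨k, hk⟩
    refine ⟨k, ?_⟩
    unfold Dat.co at hk
    rw [div_eq_iff hm] at hk
    have : (x : ℚ) = T.a + k * T.m := by linarith
    exact_mod_cast this
  · rintro ⟨k, rfl⟩
    refine ⟨k, ?_⟩
    unfold Dat.co
    push_cast
    field_simp
    ring

theorem exists_dat {τ : Equiv.Perm ℤ} (h : IsClassTransposition τ) : ∃ T : Dat, IsT T τ := by
  obtain ⟨r₁, m₁, r₂, m₂, h1, h2, h3, h4, hd, hs, hf⟩ := h
  let T : Dat := ⟨r₁, m₁, r₂, m₂, by omega, by omega⟩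
  have hI : ∀ x : ℤ, T.In x ↔ ∃ k : ℤ, x = r₁ + k * m₁ := in_iff T
  have hI' : ∀ x : ℤ, T.swap.In x ↔ ∃ k : ℤ, x = r₂ + k * m₂ := in_iff T.swap
  have hm : (m₁ : ℚ) ≠ 0 := T.mq.ne'
  have hn : (m₂ : ℚ) ≠ 0 := T.nq.ne'
  refine ⟨T, ⟨?_, ?_, ?_, ?_⟩⟩
  · intro x hx
    obtain ⟨k, rfl⟩ := (hI x).mp hx
    rw [(hs k).1]
    change ((r₂ + k * m₂ : ℤ) : ℚ) = (((r₁ + k * m₁ : ℤ) : ℚ) - r₁) / m₁ * m₂ + r₂
    push_cast
    field_simp
    ring
  · intro x hx
    obtain ⟨k, rfl⟩ := (hI' x).mp hx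
    rw [(hs k).2]
    change ((r₁ + k * m₁ : ℤ) : ℚ) = (((r₂ + k * m₂ : ℤ) : ℚ) - r₂) / m₂ * m₁ + r₁
    push_cast
    field_simp
    ring
  · intro x hx hx'
    refine hf x (fun k hk => hx ((hI x).mpr ⟨k, hk⟩)) (fun k hk => hx' ((hI' x).mpr ⟨k, hk⟩))
  · intro x hx hx'
    obtain ⟨y, rfl⟩ := T.int_of_in hx
    obtain ⟨k, hk⟩ := (hI y).mp hx
    obtain ⟨l, hl⟩ := (hI' y).mp hx'
    exact hd k l (hk.symm.trans hl)

theorem short_orbits (τ τ' : Equiv.Perm ℤ) (h : IsClassTransposition τ)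
    (h' : IsClassTransposition τ') (ho : 0 < orderOf (τ * τ')) (x : ℤ) :
    ∃ j, 0 < j ∧ j ≤ 19 ∧ ((τ * τ') ^ j) x = x := by
  obtain ⟨T, hT⟩ := exists_dat h
  obtain ⟨T', hT'⟩ := exists_dat h'
  have P : Pair (fun t => bif t then T else T') (fun t => bif t then τ else τ') := by
    refine ⟨?_, orderOf (τ * τ'), ho, ?_⟩
    · intro t
      cases t
      · exact hT'
      · exact hT
    · intro t
      cases t
      · change (τ' * τ) ^ _ = 1
        have hinv : τ' * τ = (τ * τ')⁻¹ := by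
          rw [eq_inv_iff_mul_eq_one]
          ext y
          change τ' (τ (τ (τ' y))) = y
          rw [hT.invol, hT'.invol]
        rw [hinv, inv_pow, pow_orderOf_eq_one, inv_one]
      · exact pow_orderOf_eq_one _
  exact short P x

/-- If the product of two class transpositions has finite order, then all its cycles have length at
most `19`; every finite order of such a product divides `232792560 = lcm (1, …, 19)`; in
particular the set of these orders is finite. -/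
theorem result :
    Orders.Finite ∧ (∀ n ∈ Orders, n ∣ 232792560) ∧
      ∀ τ τ' : Equiv.Perm ℤ, IsClassTransposition τ → IsClassTransposition τ' →
        0 < orderOf (τ * τ') → ∀ x : ℤ, ∃ j, 0 < j ∧ j ≤ 19 ∧ ((τ * τ') ^ j) x = x := by
  have hdvd : ∀ n ∈ Orders, n ∣ 232792560 := by
    rintro n ⟨hn, τ, τ', h, h', rfl⟩
    apply orderOf_dvd_of_pow_eq_one
    ext x
    obtain ⟨j, h0, h19, hj⟩ := short_orbits τ τ' h h' hn x
    have hd : j ∣ 232792560 := by
      interval_cases j <;> decide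
    obtain ⟨c, hc⟩ := hd
    rw [hc, pow_mul]
    have : ∀ c : ℕ, (((τ * τ') ^ j) ^ c) x = x := by
      intro c
      induction c with
      | zero => rfl
      | succ c ih => rw [pow_succ, Equiv.Perm.mul_apply, hj, ih]
    rw [this c]
    rfl
  refine ⟨?_, hdvd, short_orbits⟩
  exact (Set.finite_Iic 232792560).subset (fun n hn => Nat.le_of_dvd (by norm_num) (hdvd n hn))

end Pool.Agent.Results.MP_0fcb7f_al.FinitelyManyOrders
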